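import Pool.Agent.helper81.PD.Fin3

/-!
# PD_3-groups with symmetries

Let `G` be a Poincaré duality group of dimension 3, `N` a subgroup of finite index and `phi` a
homomorphism from `N` onto `ℤ`. Let a group `F` act on `N` by automorphisms and let `V` be a finite
2-subgroup of `F` which fixes `phi` (or which is in the kernel of every homomorphism
`F → {1, -1}`). Suppose that the group `N^V` of the elements fixed by `V` satisfies
`H^i(N^V; 𝔽₂(s)) ≠ 0` for `i = 0` or `i = 1`, where `g` acts as multiplication by `s ^ phi g`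
(for `i = 0` this means that `phi` vanishes on `N^V`, for instance `N^V = 1`).
Then `G` has a subgroup of finite index with first Betti number at least 2.
-/

namespace Pool.Agent.Results.MP_64196d_al.TwoGroupSymmetry

open Pool.Agent.helper81.PD Pool.Agent.helper81.PD.Ans

theorem result (G : Type) [Group G] (hG : Ans.IsPD3 G) (N : Subgroup G) (hNfin : N.FiniteIndex)
    (phi : N →* Multiplicative ℤ) (hphi : Function.Surjective phi)
    (F : Type) [Group F] [MulDistribMulAction F N]
    (V : Subgroup F) (hVfin : Finite V) (hV : IsPGroup 2 V)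
    (hinv : (∀ v ∈ V, ∀ x : N, phi (v • x) = phi x) ∨ ∀ f : F →* ℤˣ, ∀ v ∈ V, f v = 1)
    (hfix : (∀ x ∈ Ans.fixSub (N := N) V, phi x = 1) ∨
      Ans.HasH1 (phi.comp (Ans.fixSub (N := N) V).subtype)) :
    ∃ H : Subgroup G, H.FiniteIndex ∧ 2 ≤ Module.rank ℤ (Additive (Abelianization H)) :=
  main3 (Fin3_pd hG) N phi hphi V hV hinv (hfix.imp_right (Fin3_prin phi (Ans.fixSub (N := N) V)))

end Pool.Agent.Results.MP_64196d_al.TwoGroupSymmetry
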